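import Pool.Agent.V5helper60.GM.Stm4
import Mathlib.NumberTheory.NumberField.Cyclotomic.Galois

/-!
# Project GM, job LAY2: the real layers exist, `p = 2`
-/

set_option autoImplicit false

namespace Pool.Agent.V5helper81.GM

open IntermediateField Module Pool.Agent.Q60.MU Pool.Agent.W5h77.MB
open scoped ComplexConjugate

theorem t_LAY2 : Pool.Agent.V5helper60.GM.S_LAY2 := by
  intro ι m
  have hne : 2 ^ (m + 2) ≠ 0 := (pow_pos two_pos _).ne'
  have hnz : NeZero (2 ^ (m + 2)) := ⟨hne⟩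
  have hf : Fact (Nat.Prime 2) := ⟨Nat.prime_two⟩
  obtain ⟨ζ, hζ⟩ := HasEnoughRootsOfUnity.exists_primitiveRoot Qb (2 ^ (m + 2))
  have hle : adjoin ℚ {ζ} ≤ adjoin ℚ {z : Qb | z ^ 2 ^ (m + 2) = 1} := by
    rw [adjoin_le_iff]
    rintro z rfl
    exact subset_adjoin _ _ hζ.pow_eq_one
  have hcyc : IsCyclotomicExtension {2 ^ (m + 2)} ℚ (adjoin ℚ {ζ}) :=
    hζ.intermediateField_adjoin_isCyclotomicExtension ℚ
  have hfd : FiniteDimensional ℚ (adjoin ℚ {ζ}) :=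
    IsCyclotomicExtension.finiteDimensional {2 ^ (m + 2)} ℚ _
  have hgal : IsGalois ℚ (adjoin ℚ {ζ}) := IsCyclotomicExtension.isGalois {2 ^ (m + 2)} ℚ _
  have hdeg : finrank ℚ (adjoin ℚ {ζ}) = 2 ^ m * 2 := by
    rw [IsCyclotomicExtension.finrank (n := 2 ^ (m + 2)) (adjoin ℚ {ζ})
      (Polynomial.cyclotomic.irreducible_rat (pow_pos two_pos _)),
      Nat.totient_prime_pow_succ Nat.prime_two]
    norm_num [pow_succ]
  obtain ⟨c, hc, hcc⟩ := exists_conj ι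
  let cE : Gal(adjoin ℚ {ζ}/ℚ) := c.restrictNormal (adjoin ℚ {ζ})
  have hcE : ∀ x : adjoin ℚ {ζ}, ((cE x : adjoin ℚ {ζ}) : Qb) = c (x : Qb) :=
    fun x => AlgEquiv.restrictNormal_commutes c _ x
  have hcE2 : cE ^ 2 = 1 := by
    ext x
    rw [pow_two, AlgEquiv.mul_apply, hcE, hcE, AlgEquiv.one_apply]
    have h1 := congrArg (fun g : Gal(Qb/ℚ) => g (x : Qb)) hcc
    simpa using h1
  have hcE1 : cE ≠ 1 := by
    intro h
    have h1 : c ζ = ζ := by
      have h2 := hcE ⟨ζ, mem_adjoin_simple_self ℚ ζ⟩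
      rw [h, AlgEquiv.one_apply] at h2
      exact h2.symm
    have h2 : ι ζ ^ 2 ^ (m + 2) = 1 := by rw [← map_pow, hζ.pow_eq_one, map_one]
    have h3 : ‖ι ζ‖ = 1 := Complex.norm_eq_one_of_pow_eq_one h2 hne
    have h4 : conj (ι ζ) = ι ζ := by rw [← hc, h1]
    have h5 : ι ζ * ι ζ = 1 := by
      have h6 : ι ζ * conj (ι ζ) = 1 := by
        rw [Complex.mul_conj, Complex.normSq_eq_norm_sq, h3]
        norm_num
      rwa [h4] at h6
    have h6 : ζ ^ 2 = 1 := by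
      apply ι.injective
      rw [map_pow, map_one, pow_two, h5]
    have h7 : 2 ^ (m + 2) ∣ 2 := (hζ.pow_eq_one_iff_dvd 2).1 h6
    have h8 := Nat.le_of_dvd two_pos h7
    have h9 : 2 ^ 2 ≤ 2 ^ (m + 2) := Nat.pow_le_pow_right two_pos (by omega)
    omega
  have hord : orderOf cE = 2 := orderOf_eq_prime hcE2 hcE1
  have hcard : Nat.card (Subgroup.zpowers cE) = 2 := by rw [Nat.card_zpowers, hord]
  refine ⟨lift (fixedField (Subgroup.zpowers cE)), ⟨?_, m + 2, (lift_le _).trans hle⟩, ?_⟩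
  · have h1 : finrank ℚ (lift (fixedField (Subgroup.zpowers cE))) =
        finrank ℚ (fixedField (Subgroup.zpowers cE)) :=
      (liftAlgEquiv (fixedField (Subgroup.zpowers cE))).toLinearEquiv.finrank_eq.symm
    rw [h1]
    have h2 := finrank_mul_finrank ℚ (fixedField (Subgroup.zpowers cE)) (adjoin ℚ {ζ})
    rw [finrank_fixedField_eq_card, hcard, hdeg] at h2
    exact Nat.eq_of_mul_eq_mul_right two_pos h2
  · intro x hx
    have hxE : x ∈ adjoin ℚ {ζ} := lift_le _ hx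
    have h1 : (⟨x, hxE⟩ : adjoin ℚ {ζ}) ∈ fixedField (Subgroup.zpowers cE) :=
      (mem_lift (⟨x, hxE⟩ : adjoin ℚ {ζ})).1 hx
    have h2 := (mem_fixedField_iff _ _).1 h1 cE (Subgroup.mem_zpowers cE)
    have h3 := hcE ⟨x, hxE⟩
    rw [h2] at h3
    rw [mem_realSub, ← hc]
    exact congrArg ι h3.symm

end Pool.Agent.V5helper81.GM
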