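import Pool.Agent.V5helper60.GM.Stm
import Pool.Agent.W5h33.DF.Field
import Mathlib.NumberTheory.NumberField.Cyclotomic.Ideal

/-!
# Project GM, job OP: one prime above `p` in the field of the `p^N`-th roots of unity
-/

set_option autoImplicit false

namespace Pool.Agent.V5helper81.GM

open IntermediateField NumberField Pool.Agent.Q60.MU Pool.Agent.W5h77.MB

section gen
variable {L : Type} [Field L] [NumberField L]

theorem int_mem (A : ValuationSubring L) (x : 𝓞 L) : (x : L) ∈ A := by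
  have h1 : IsIntegral A (x : L) := (RingOfIntegers.isIntegral_coe x).tower_top
  obtain ⟨y, hy⟩ := (IsIntegrallyClosed.isIntegral_iff (R := A) (K := L)).1 h1
  rw [← hy]
  exact y.2

theorem val_le (A : ValuationSubring L) (x : 𝓞 L) : A.valuation (x : L) ≤ 1 :=
  (A.valuation_le_one_iff _).2 (int_mem A x)

theorem val_one {π : 𝓞 L} (hπ : Prime π) {A : ValuationSubring L}
    (hA : A.valuation (π : L) < 1) {a : 𝓞 L} (ha : ¬ π ∣ a) : A.valuation (a : L) = 1 := by
  refine le_antisymm (val_le A a) ?_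
  by_contra hlt
  rw [not_le] at hlt
  have hpr : (Ideal.span {π}).IsPrime := (Ideal.span_singleton_prime hπ.ne_zero).2 hπ
  have hmax : (Ideal.span {π}).IsMaximal :=
    hpr.isMaximal (by rw [Ne, Ideal.span_singleton_eq_bot]; exact hπ.ne_zero)
  obtain ⟨y, i, hi, h1⟩ := hmax.exists_inv (x := a) (by rwa [Ideal.mem_span_singleton])
  obtain ⟨t, rfl⟩ := Ideal.mem_span_singleton.1 hi
  have h2 : (y : L) * (a : L) + (π : L) * (t : L) = 1 := by
    have h3 := congrArg (fun z : 𝓞 L => (z : L)) h1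
    simpa using h3
  have h3 : A.valuation (1 : L) < 1 := by
    rw [← h2]
    refine lt_of_le_of_lt (A.valuation.map_add _ _) (max_lt ?_ ?_)
    · rw [map_mul, mul_comm]
      exact mul_lt_one_of_lt_of_le hlt (val_le A y)
    · rw [map_mul]
      exact mul_lt_one_of_lt_of_le hA (val_le A t)
  rw [map_one] at h3
  exact lt_irrefl _ h3

theorem mem_iff {π : 𝓞 L} (hπ : Prime π) {A : ValuationSubring L}
    (hA : A.valuation (π : L) < 1) {a b : 𝓞 L} (ha : ¬ π ∣ a) (hb : ¬ π ∣ b) (i j : ℕ) {x : L}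
    (hx : x = ((π : L) ^ i * (a : L)) / ((π : L) ^ j * (b : L))) : x ∈ A ↔ j ≤ i := by
  have h0 : A.valuation (π : L) ≠ 0 := by
    rw [Ne, map_eq_zero]
    exact_mod_cast hπ.ne_zero
  rw [← A.valuation_le_one_iff, hx, map_div₀, map_mul, map_mul, map_pow, map_pow,
    val_one hπ hA ha, val_one hπ hA hb, mul_one, mul_one,
    div_le_one₀ (pow_pos (zero_lt_iff.2 h0) _),
    pow_le_pow_iff_right_of_lt_one₀ (zero_lt_iff.2 h0) hA]

theorem eq_of_prime {π : 𝓞 L} (hπ : Prime π) {A B : ValuationSubring L}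
    (hA : A.valuation (π : L) < 1) (hB : B.valuation (π : L) < 1) : A = B := by
  ext x
  by_cases hx : x = 0
  · subst hx
    exact ⟨fun _ => B.zero_mem, fun _ => A.zero_mem⟩
  obtain ⟨a, b, hb, hab⟩ := IsFractionRing.div_surjective (A := 𝓞 L) x
  have hb0 : b ≠ 0 := nonZeroDivisors.ne_zero hb
  have ha0 : a ≠ 0 := by
    rintro rfl
    apply hx
    rw [← hab, map_zero, zero_div]
  obtain ⟨i, a', ha', rfl⟩ := WfDvdMonoid.max_power_factor ha0 hπ.irreducible
  obtain ⟨j, b', hb', rfl⟩ := WfDvdMonoid.max_power_factor hb0 hπ.irreducible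
  have hx' : x = ((π : L) ^ i * (a' : L)) / ((π : L) ^ j * (b' : L)) := by
    rw [← hab, map_mul, map_mul, map_pow, map_pow]
  rw [mem_iff hπ hA ha' hb' i j hx', mem_iff hπ hB ha' hb' i j hx']

theorem val_pi {π : 𝓞 L} {p n : ℕ} (hd : π ^ n ∣ (p : 𝓞 L)) (hd' : (p : 𝓞 L) ∣ π ^ n)
    {A : ValuationSubring L} (hA : (p : L) ∈ A.nonunits) : A.valuation (π : L) < 1 := by
  rw [ValuationSubring.mem_nonunits_iff] at hA
  obtain ⟨t, ht⟩ := hd'
  have h1 : (π : L) ^ n = (p : L) * (t : L) := by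
    have h3 := congrArg (fun z : 𝓞 L => (z : L)) ht
    simpa using h3
  have h2 : A.valuation (π : L) ^ n < 1 := by
    rw [← map_pow, h1, map_mul]
    exact mul_lt_one_of_lt_of_le hA (val_le A t)
  by_contra hge
  rw [not_lt] at hge
  exact absurd h2 (not_lt.2 (one_le_pow₀ hge))

end gen

theorem onePrime_succ {p : ℕ} (hp : p.Prime) (k : ℕ) :
    OnePrime p (adjoin ℚ {z : Qb | z ^ p ^ (k + 1) = 1}) := by
  have hf : Fact p.Prime := ⟨hp⟩
  have hne : p ^ (k + 1) ≠ 0 := (pow_pos hp.pos _).ne'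
  have hnz : NeZero (p ^ (k + 1)) := ⟨hne⟩
  obtain ⟨ζ, hζ⟩ := HasEnoughRootsOfUnity.exists_primitiveRoot Qb (p ^ (k + 1))
  have heq : adjoin ℚ {z : Qb | z ^ p ^ (k + 1) = 1} = adjoin ℚ {ζ} := by
    apply le_antisymm
    · rw [adjoin_le_iff]
      intro z hz
      obtain ⟨m, -, rfl⟩ := hζ.eq_pow_of_pow_eq_one hz
      exact pow_mem (mem_adjoin_simple_self ℚ ζ) m
    · rw [adjoin_le_iff]
      rintro z rfl
      exact subset_adjoin _ _ hζ.pow_eq_one
  rw [heq]
  have hcyc : IsCyclotomicExtension {p ^ (k + 1)} ℚ (adjoin ℚ {ζ}) :=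
    hζ.intermediateField_adjoin_isCyclotomicExtension ℚ
  have hnf : NumberField (adjoin ℚ {ζ}) := IsCyclotomicExtension.numberField {p ^ (k + 1)} ℚ _
  have hζ' := IsCyclotomicExtension.zeta_spec (p ^ (k + 1)) ℚ (adjoin ℚ {ζ})
  have hmap := IsCyclotomicExtension.Rat.map_eq_span_zeta_sub_one_pow p k hζ'
  rw [Ideal.map_span, Set.image_singleton, Ideal.span_singleton_pow] at hmap
  have hd1 := Ideal.span_singleton_le_span_singleton.1 hmap.le
  have hd2 := Ideal.span_singleton_le_span_singleton.1 hmap.ge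
  have hd1' : (hζ'.toInteger - 1) ^ Module.finrank ℚ (adjoin ℚ {ζ}) ∣
      ((p : ℕ) : 𝓞 (adjoin ℚ {ζ})) := by simpa using hd1
  have hd2' : ((p : ℕ) : 𝓞 (adjoin ℚ {ζ})) ∣
      (hζ'.toInteger - 1) ^ Module.finrank ℚ (adjoin ℚ {ζ}) := by simpa using hd2
  intro A B hA hB
  exact eq_of_prime hζ'.zeta_sub_one_prime (val_pi hd1' hd2' hA) (val_pi hd1' hd2' hB)

theorem t_OP : Pool.Agent.V5helper60.GM.S_OP := by
  intro p hp N
  rcases N with _ | k
  · have h : adjoin ℚ {z : Qb | z ^ p ^ 0 = 1} = ⊥ := by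
      rw [eq_bot_iff, adjoin_le_iff]
      intro z hz
      have h1 : z = 1 := by simpa using hz
      rw [h1]
      exact one_mem _
    rw [h]
    exact Pool.Agent.W5h33.DF.onePrime_bot hp
  · exact onePrime_succ hp k

end Pool.Agent.V5helper81.GM
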